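import Mathlib

/-!
For every `m ≥ 7` there is a vectorial bent function `F : F_2^(2m) → F_2^m` such that no function
`F + L` with `L` linear is almost balanced of type `(-)`.
-/

namespace Pool.Agent.Results.MP_7d7944_co.NoMinusType

open Finset

/-- The vector space `F_2^n`. -/
abbrev W (n : ℕ) : Type := Fin n → ZMod 2

/-- The size of the preimage of `b`. -/
def pre {n m : ℕ} (F : W n → W m) (b : W m) : ℕ := (univ.filter (fun x => F x = b)).card

/-- `F : F_2^n → F_2^m` is bent: every derivative in a nonzero direction takes each value exactly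
`2^(n-m)` times. -/
def IsBent {n m : ℕ} (F : W n → W m) : Prop :=
  ∀ a : W n, a ≠ 0 → ∀ b : W m,
    (univ.filter (fun x => F (x + a) + F x = b)).card = 2 ^ (n - m)

/-- `F : F_2^n → F_2^m` is almost balanced of type `(-)`. -/
def TypeMinus {n m : ℕ} (F : W n → W m) : Prop :=
  ∃ α : W m, (pre F α : ℤ) = 2 ^ (n - m) - 2 ^ (n / 2) + 2 ^ (n / 2 - m) ∧
    ∀ β, β ≠ α → (pre F β : ℤ) = 2 ^ (n - m) + 2 ^ (n / 2 - m)

variable {m : ℕ}

theorem wadd_self {n : ℕ} (x : W n) : x + x = 0 := by
  ext i
  exact CharTwo.add_self_eq_zero _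

theorem eq_of_wadd {n : ℕ} {x y : W n} (h : x + y = 0) : x = y := by
  have : x + y + y = y := by rw [h, zero_add]
  rwa [add_assoc, wadd_self, add_zero] at this

theorem wadd_eq_iff {n : ℕ} (x y z : W n) : x + y = z ↔ x = z + y := by
  constructor
  · rintro rfl
    rw [add_assoc, wadd_self, add_zero]
  · rintro rfl
    rw [add_assoc, wadd_self, add_zero]

theorem card_W (n : ℕ) : Fintype.card (W n) = 2 ^ n := by simp [ZMod.card]

/-- A multiplication without zero divisors on `F_2^m`. -/
structure Mul (m : ℕ) where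
  f : W m → W m → W m
  add_left : ∀ x x' y, f (x + x') y = f x y + f x' y
  add_right : ∀ x y y', f x (y + y') = f x y + f x y'
  ne_zero : ∀ x y, x ≠ 0 → y ≠ 0 → f x y ≠ 0

theorem exists_mul (hm : m ≠ 0) : Nonempty (Mul m) := by
  have hfact : Fact (Nat.Prime 2) := ⟨Nat.prime_two⟩
  have hfr : Module.finrank (ZMod 2) (GaloisField 2 m) = Module.finrank (ZMod 2) (W m) := by
    rw [GaloisField.finrank 2 hm]; simp
  let e : GaloisField 2 m ≃ₗ[ZMod 2] W m := LinearEquiv.ofFinrankEq _ _ hfr
  refine ⟨⟨fun x y => e (e.symm x * e.symm y), ?_, ?_, ?_⟩⟩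
  · intro x x' y
    rw [map_add, add_mul, map_add]
  · intro x y y'
    rw [map_add, mul_add, map_add]
  · intro x y hx hy
    simp only [ne_eq, EmbeddingLike.map_eq_zero_iff, mul_eq_zero, not_or]
    exact ⟨hx, hy⟩

namespace Mul

variable (B : Mul m)

theorem zero_right (x : W m) : B.f x 0 = 0 := by
  have h := B.add_right x 0 0
  rw [add_zero] at h
  have h2 := wadd_self (B.f x 0)
  rw [← h] at h2
  exact h2

theorem zero_left (y : W m) : B.f 0 y = 0 := by
  have h := B.add_left 0 0 y
  rw [add_zero] at h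
  have h2 := wadd_self (B.f 0 y)
  rw [← h] at h2
  exact h2

theorem inj_right (x : W m) (hx : x ≠ 0) : Function.Injective (B.f x) := by
  intro y y' h
  by_contra hne
  have h1 : y + y' ≠ 0 := fun h0 => hne (eq_of_wadd h0)
  apply B.ne_zero x (y + y') hx h1
  rw [B.add_right, h, wadd_self]

theorem inj_left (y : W m) (hy : y ≠ 0) : Function.Injective (fun x => B.f x y) := by
  intro x x' h
  by_contra hne
  have h1 : x + x' ≠ 0 := fun h0 => hne (eq_of_wadd h0)
  apply B.ne_zero (x + x') y h1 hy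
  rw [B.add_left]
  have h2 : B.f x y = B.f x' y := h
  rw [h2, wadd_self]

end Mul

/-! ### Additive maps -/

section additive

variable (g : W m → W m) (hg : ∀ x x', g (x + x') = g x + g x')

/-- size of the kernel -/
def ker (g : W m → W m) : ℕ := (univ.filter (fun x => g x = 0)).card

include hg

theorem add_zero_map : g 0 = 0 := by
  have h := hg 0 0
  rw [add_zero] at h
  have h2 := wadd_self (g 0)
  rw [← h] at h2
  exact h2

theorem fiber (c : W m) (x₀ : W m) (h : g x₀ = c) :
    (univ.filter (fun x => g x = c)).card = ker g := by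
  unfold ker
  apply card_bij (fun x _ => x + x₀)
  · intro x hx
    rw [mem_filter] at hx ⊢
    refine ⟨mem_univ _, ?_⟩
    rw [hg, hx.2, h, wadd_self]
  · intro x _ y _ hxy
    exact add_right_cancel hxy
  · intro y hy
    rw [mem_filter] at hy
    refine ⟨y + x₀, ?_, ?_⟩
    · rw [mem_filter]
      refine ⟨mem_univ _, ?_⟩
      rw [hg, hy.2, zero_add, h]
    · rw [add_assoc, wadd_self, add_zero]

theorem range_mul_ker : (univ.image g).card * ker g = 2 ^ m := by
  rw [← card_W m, ← card_univ, card_eq_sum_card_image g univ]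
  rw [sum_const_nat]
  intro c hc
  rw [mem_image] at hc
  obtain ⟨x₀, -, h⟩ := hc
  exact fiber g hg c x₀ h

theorem ker_pos : 1 ≤ ker g := by
  unfold ker
  apply card_pos.2
  exact ⟨0, by rw [mem_filter]; exact ⟨mem_univ _, add_zero_map g hg⟩⟩

end additive

/-! ### The construction -/

/-- the first half of the coordinates -/
def fst (v : W (m + m)) : W m := fun i => v (Fin.castAdd m i)
/-- the second half of the coordinates -/
def snd (v : W (m + m)) : W m := fun i => v (Fin.natAdd m i)

theorem fst_add (v w : W (m + m)) : fst (v + w) = fst v + fst w := rfl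
theorem snd_add (v w : W (m + m)) : snd (v + w) = snd v + snd w := rfl

/-- `(x, y)` as a vector -/
def pr (x y : W m) : W (m + m) := Fin.append x y

theorem fst_pr (x y : W m) : fst (pr x y) = x := by
  ext i; simp [fst, pr]

theorem snd_pr (x y : W m) : snd (pr x y) = y := by
  funext i
  show Fin.append x y (Fin.natAdd m i) = y i
  exact Fin.append_right x y i

theorem pr_fst_snd (v : W (m + m)) : pr (fst v) (snd v) = v :=
  (Fin.appendEquiv m m).right_inv v

theorem pr_add (x y x' y' : W m) : pr (x + x') (y + y') = pr x y + pr x' y' := by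
  rw [← pr_fst_snd (pr x y + pr x' y'), fst_add, snd_add, fst_pr, fst_pr, snd_pr, snd_pr]

theorem sum_pr {M : Type} [AddCommMonoid M] (f : W (m + m) → M) :
    ∑ v, f v = ∑ y : W m, ∑ x : W m, f (pr x y) := by
  rw [sum_comm, ← Fintype.sum_prod_type' (f := fun x y => f (pr x y))]
  exact (Equiv.sum_comp (Fin.appendEquiv (α := ZMod 2) m m) f).symm

theorem card_filter_pr (P : W (m + m) → Prop) [DecidablePred P] :
    (univ.filter P).card = ∑ y : W m, (univ.filter (fun x : W m => P (pr x y))).card := by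
  rw [card_filter, sum_pr]
  apply sum_congr rfl
  intro y _
  rw [card_filter]

/-- The Maiorana–McFarland function. -/
def MM (B : Mul m) (ρ : W m → W m) (v : W (m + m)) : W m := B.f (fst v) (snd v) + ρ (snd v)

theorem MM_bent (B : Mul m) (ρ : W m → W m) : IsBent (MM B ρ) := by
  intro a ha b
  have hexp : m + m - m = m := by omega
  rw [hexp, card_filter_pr]
  have h : ∀ x y, (MM B ρ (pr x y + a) + MM B ρ (pr x y) = b) ↔
      B.f x (snd a) + B.f (fst a) y =
        b + (B.f (fst a) (snd a) + (ρ (y + snd a) + ρ y)) := by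
    intro x y
    have h1 : MM B ρ (pr x y + a) + MM B ρ (pr x y) =
        (B.f x (snd a) + B.f (fst a) y) + (B.f (fst a) (snd a) + (ρ (y + snd a) + ρ y)) := by
      unfold MM
      rw [fst_add, snd_add, fst_pr, snd_pr, B.add_left, B.add_right, B.add_right]
      have h2 : B.f x y + B.f x (snd a) + (B.f (fst a) y + B.f (fst a) (snd a)) +
          ρ (y + snd a) + (B.f x y + ρ y) =
          (B.f x y + B.f x y) + ((B.f x (snd a) + B.f (fst a) y) +
            (B.f (fst a) (snd a) + (ρ (y + snd a) + ρ y))) := by abel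
      rw [h2, wadd_self, zero_add]
    rw [h1, wadd_eq_iff]
  simp only [h]
  by_cases hs : snd a = 0
  · -- then `fst a ≠ 0`
    have hf : fst a ≠ 0 := by
      intro h0
      apply ha
      rw [← pr_fst_snd a, h0, hs]
      funext i
      refine Fin.addCases (fun j => ?_) (fun j => ?_) i
      · simp [pr]
      · show Fin.append (0 : W m) (0 : W m) (Fin.natAdd m j) = 0
        rw [Fin.append_right]; rfl
    have hbij : Function.Bijective (B.f (fst a)) :=
      (Finite.injective_iff_bijective).1 (B.inj_right _ hf)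
    obtain ⟨y₀, hy₀⟩ := hbij.2 (b + (B.f (fst a) 0 + 0))
    have h3 : ∀ y : W m, (univ.filter (fun x : W m => B.f x (snd a) + B.f (fst a) y =
        b + (B.f (fst a) (snd a) + (ρ (y + snd a) + ρ y)))).card =
        if y = y₀ then 2 ^ m else 0 := by
      intro y
      rw [hs, add_zero, wadd_self]
      by_cases hy : y = y₀
      · rw [if_pos hy, hy, hy₀, ← card_W m, ← card_univ]
        congr 1
        rw [filter_eq_self]
        intro x _
        rw [B.zero_right x, zero_add]
      · rw [if_neg hy, card_eq_zero, filter_eq_empty_iff]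
        intro x _ hx
        rw [B.zero_right x, zero_add, ← hy₀] at hx
        exact hy (hbij.1 hx)
    simp only [h3]
    rw [sum_ite_eq' univ y₀]
    simp
  · have hbij : Function.Bijective (fun x => B.f x (snd a)) :=
      (Finite.injective_iff_bijective).1 (B.inj_left _ hs)
    have h3 : ∀ y : W m, (univ.filter (fun x : W m => B.f x (snd a) + B.f (fst a) y =
        b + (B.f (fst a) (snd a) + (ρ (y + snd a) + ρ y)))).card = 1 := by
      intro y
      obtain ⟨x₀, hx₀⟩ := hbij.2 (b + (B.f (fst a) (snd a) + (ρ (y + snd a) + ρ y)) +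
        B.f (fst a) y)
      rw [card_eq_one]
      refine ⟨x₀, ?_⟩
      ext x
      rw [mem_filter, mem_singleton, wadd_eq_iff]
      constructor
      · rintro ⟨-, h4⟩
        exact hbij.1 (h4.trans hx₀.symm)
      · rintro rfl
        exact ⟨mem_univ _, hx₀⟩
    simp only [h3]
    rw [sum_const, card_univ, card_W]
    simp

/-! ### The counting argument -/

/-- exactly one solution -/
def One (B : Mul m) (L₁ L₂ : W m → W m) (α : W m) (ρ : W m → W m) : Prop :=
  ∑ y : W m, (univ.filter (fun x : W m => (B.f x y + L₁ x) = α + (ρ y + L₂ y))).card = 1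

theorem sum_ker (B : Mul m) (L₁ : W m → W m) (h₁ : ∀ x x', L₁ (x + x') = L₁ x + L₁ x') :
    ∑ y : W m, (ker (fun x => B.f x y + L₁ x) - 1) = 2 ^ m - 1 := by
  have h : ∀ y : W m, ker (fun x => B.f x y + L₁ x) - 1 =
      ((univ.erase (0 : W m)).filter (fun x => B.f x y + L₁ x = 0)).card := by
    intro y
    unfold ker
    rw [← card_erase_of_mem (a := (0 : W m))]
    · congr 1
      ext x
      simp only [mem_erase, mem_filter, mem_univ, true_and, and_true]
    · rw [mem_filter]
      refine ⟨mem_univ _, ?_⟩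
      show B.f 0 y + L₁ 0 = 0
      rw [B.zero_left, zero_add]; exact add_zero_map L₁ h₁
  simp only [h, card_filter]
  rw [sum_comm]
  have h2 : ∀ x ∈ univ.erase (0 : W m), (∑ y : W m, if B.f x y + L₁ x = 0 then 1 else 0) = 1 := by
    intro x hx
    rw [mem_erase] at hx
    rw [← card_filter, card_eq_one]
    have hbij : Function.Bijective (B.f x) :=
      (Finite.injective_iff_bijective).1 (B.inj_right x hx.1)
    obtain ⟨y₀, hy₀⟩ := hbij.2 (L₁ x)
    refine ⟨y₀, ?_⟩
    ext y
    rw [mem_filter, mem_singleton]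
    constructor
    · rintro ⟨-, h4⟩
      exact hbij.1 ((eq_of_wadd h4).trans hy₀.symm)
    · rintro rfl
      exact ⟨mem_univ _, by rw [hy₀, wadd_self]⟩
  rw [sum_congr rfl h2, sum_const, card_erase_of_mem (mem_univ _), card_univ, card_W]
  simp

/-- The structure forced by exactly one solution. -/
theorem one_struct (B : Mul m) (L₁ L₂ : W m → W m) (h₁ : ∀ x x', L₁ (x + x') = L₁ x + L₁ x')
    (α : W m) (ρ : W m → W m) (h : One B L₁ L₂ α ρ) :
    ∃ y₀, ker (fun x => B.f x y₀ + L₁ x) = 1 ∧
      ∀ y, y ≠ y₀ → ker (fun x => B.f x y + L₁ x) = 2 ∧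
        ∀ x, B.f x y + L₁ x ≠ α + (ρ y + L₂ y) := by
  classical
  have hadd : ∀ y x x', B.f (x + x') y + L₁ (x + x') =
      (B.f x y + L₁ x) + (B.f x' y + L₁ x') := by
    intro y x x'
    rw [B.add_left, h₁]; abel
  unfold One at h
  -- the unique y with a solution
  obtain ⟨y₀, hy₀⟩ : ∃ y₀, (univ.filter (fun x : W m =>
      (B.f x y₀ + L₁ x) = α + (ρ y₀ + L₂ y₀))).card ≠ 0 := by
    by_contra hcon
    push Not at hcon
    rw [sum_congr rfl (fun y _ => hcon y)] at h
    simp at h
  have hone : (univ.filter (fun x : W m => (B.f x y₀ + L₁ x) = α + (ρ y₀ + L₂ y₀))).card = 1 ∧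
      ∀ y, y ≠ y₀ → (univ.filter (fun x : W m =>
        (B.f x y + L₁ x) = α + (ρ y + L₂ y))).card = 0 := by
    rw [← add_sum_erase univ _ (mem_univ y₀)] at h
    have h1 : ∑ y ∈ univ.erase y₀, (univ.filter (fun x : W m =>
        (B.f x y + L₁ x) = α + (ρ y + L₂ y))).card = 0 := by omega
    refine ⟨by omega, ?_⟩
    intro y hy
    exact (sum_eq_zero_iff.1 h1) y (mem_erase.2 ⟨hy, mem_univ _⟩)
  have hk0 : ker (fun x => B.f x y₀ + L₁ x) = 1 := by
    obtain ⟨x₀, hx₀⟩ := card_pos.1 (Nat.pos_of_ne_zero hy₀)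
    rw [mem_filter] at hx₀
    rw [← fiber (fun x => B.f x y₀ + L₁ x) (hadd y₀) _ x₀ hx₀.2]
    exact hone.1
  have hno : ∀ y, y ≠ y₀ → ∀ x, B.f x y + L₁ x ≠ α + (ρ y + L₂ y) := by
    intro y hy x hx
    have := hone.2 y hy
    rw [card_eq_zero, filter_eq_empty_iff] at this
    exact this (mem_univ x) hx
  have hge : ∀ y ∈ univ.erase y₀, 1 ≤ ker (fun x => B.f x y + L₁ x) - 1 := by
    intro y hy
    rw [mem_erase] at hy
    have h1 := ker_pos (fun x => B.f x y + L₁ x) (hadd y)
    by_contra hcon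
    have h2 : ker (fun x => B.f x y + L₁ x) = 1 := by omega
    have h3 := range_mul_ker (fun x => B.f x y + L₁ x) (hadd y)
    rw [h2, mul_one, ← card_W m, ← card_univ] at h3
    have h4 := eq_of_subset_of_card_le (subset_univ _) h3.ge
    have h5 : α + (ρ y + L₂ y) ∈ univ.image (fun x => B.f x y + L₁ x) := by
      rw [h4]; exact mem_univ _
    rw [mem_image] at h5
    obtain ⟨x, -, hx⟩ := h5
    exact hno y hy.1 x hx
  have hsum := sum_ker B L₁ h₁
  rw [← add_sum_erase univ _ (mem_univ y₀), hk0, Nat.sub_self, zero_add] at hsum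
  have hcard : ∑ y ∈ univ.erase y₀, 1 = 2 ^ m - 1 := by
    rw [sum_const, card_erase_of_mem (mem_univ _), card_univ, card_W]; simp
  have heq := (sum_eq_sum_iff_of_le hge).1 (hcard.trans hsum.symm)
  refine ⟨y₀, hk0, ?_⟩
  intro y hy
  refine ⟨?_, hno y hy⟩
  have := heq y (mem_erase.2 ⟨hy, mem_univ _⟩)
  omega

/-- The number of `ρ` with exactly one solution. -/
theorem card_one (hm : 1 ≤ m) (B : Mul m) (L₁ L₂ : W m → W m)
    (h₁ : ∀ x x', L₁ (x + x') = L₁ x + L₁ x') (α : W m)
    [DecidablePred (One B L₁ L₂ α)] :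
    (univ.filter (One B L₁ L₂ α)).card ≤ 2 ^ m * (2 ^ (m - 1)) ^ (2 ^ m - 1) := by
  classical
  by_cases hne : (univ.filter (One B L₁ L₂ α)).Nonempty
  · obtain ⟨ρ₀, hρ₀⟩ := hne
    rw [mem_filter] at hρ₀
    obtain ⟨y₀, hk0, hk⟩ := one_struct B L₁ L₂ h₁ α ρ₀ hρ₀.2
    have hadd : ∀ y x x', B.f (x + x') y + L₁ (x + x') =
        (B.f x y + L₁ x) + (B.f x' y + L₁ x') := by
      intro y x x'
      rw [B.add_left, h₁]; abel
    let t : W m → Finset (W m) := fun y =>
      if y = y₀ then univ else univ.filter (fun r => ∀ x, B.f x y + L₁ x ≠ α + (r + L₂ y))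
    have hsub : univ.filter (One B L₁ L₂ α) ⊆ Fintype.piFinset t := by
      intro ρ hρ
      rw [mem_filter] at hρ
      obtain ⟨y₁, hk1, hk'⟩ := one_struct B L₁ L₂ h₁ α ρ hρ.2
      have hy : y₁ = y₀ := by
        by_contra hne'
        have := (hk y₁ hne').1
        omega
      subst hy
      rw [Fintype.mem_piFinset]
      intro y
      simp only [t]
      split_ifs with hy
      · exact mem_univ _
      · rw [mem_filter]
        exact ⟨mem_univ _, (hk' y hy).2⟩
    refine (card_le_card hsub).trans ?_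
    rw [Fintype.card_piFinset, ← mul_prod_erase univ _ (mem_univ y₀)]
    have e1 : (t y₀).card = 2 ^ m := by
      simp only [t, if_pos rfl]
      rw [card_univ, card_W]
    have e2 : ∀ y ∈ univ.erase y₀, (t y).card = 2 ^ (m - 1) := by
      intro y hy
      rw [mem_erase] at hy
      simp only [t, if_neg hy.1]
      have h3 := range_mul_ker (fun x => B.f x y + L₁ x) (hadd y)
      rw [(hk y hy.1).1] at h3
      have h4 : (univ.filter (fun r => ∀ x, B.f x y + L₁ x ≠ α + (r + L₂ y))).card =
          ((univ.image (fun x => B.f x y + L₁ x))ᶜ).card := by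
        apply card_bij (fun r _ => α + (r + L₂ y))
        · intro r hr
          rw [mem_filter] at hr
          rw [mem_compl, mem_image]
          rintro ⟨x, -, hx⟩
          exact hr.2 x hx
        · intro r _ s _ hrs
          exact add_right_cancel (add_left_cancel hrs)
        · intro c hc
          rw [mem_compl, mem_image] at hc
          refine ⟨c + α + L₂ y, ?_, ?_⟩
          · rw [mem_filter]
            refine ⟨mem_univ _, ?_⟩
            intro x hx
            apply hc
            refine ⟨x, mem_univ _, ?_⟩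
            rw [hx]
            have : α + (c + α + L₂ y + L₂ y) = c + (α + α) + (L₂ y + L₂ y) := by abel
            rw [this, wadd_self, wadd_self, add_zero, add_zero]
          · have : α + (c + α + L₂ y + L₂ y) = c + (α + α) + (L₂ y + L₂ y) := by abel
            rw [this, wadd_self, wadd_self, add_zero, add_zero]
      rw [h4, card_compl, card_W]
      have h5 : 2 ^ m = 2 ^ (m - 1) * 2 := by
        rw [← pow_succ]; congr 1; omega
      omega
    rw [e1, prod_congr rfl e2, prod_const, card_erase_of_mem (mem_univ _), card_univ, card_W]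
  · rw [not_nonempty_iff_eq_empty] at hne
    rw [hne, card_empty]
    exact Nat.zero_le _

theorem numeric (hm : 7 ≤ m) : 2 * (m * m) + m + m + (m - 1) * (2 ^ m - 1) < m * 2 ^ m := by
  have h : 2 * (m * m) + m + 2 ≤ 2 ^ m := by
    induction m, hm using Nat.le_induction with
    | base => norm_num
    | succ k hk ih =>
      rw [pow_succ]
      nlinarith
  obtain ⟨k, rfl⟩ : ∃ k, m = k + 1 := ⟨m - 1, by omega⟩
  simp only [Nat.add_sub_cancel]
  obtain ⟨q, hq⟩ : ∃ q, 2 ^ (k + 1) = q + 1 := ⟨2 ^ (k + 1) - 1, by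
    have : 1 ≤ 2 ^ (k + 1) := Nat.one_le_two_pow
    omega⟩
  rw [hq] at h ⊢
  simp only [Nat.add_sub_cancel]
  nlinarith

/-- embedding of the first half -/
def inl (m : ℕ) : W m →ₗ[ZMod 2] W (m + m) where
  toFun x := pr x 0
  map_add' x y := by
    rw [← pr_add, add_zero]
  map_smul' c x := by
    rw [← pr_fst_snd (RingHom.id (ZMod 2) c • pr x 0)]
    have h1 : fst (RingHom.id (ZMod 2) c • pr x 0) = c • x := by
      have : fst (RingHom.id (ZMod 2) c • pr x 0) = c • fst (pr x 0) := rfl
      rw [this, fst_pr]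
    have h2 : snd (RingHom.id (ZMod 2) c • pr x 0) = 0 := by
      have : snd (RingHom.id (ZMod 2) c • pr x 0) = c • snd (pr x 0) := rfl
      rw [this, snd_pr, smul_zero]
    rw [h1, h2]

/-- embedding of the second half -/
def inr (m : ℕ) : W m →ₗ[ZMod 2] W (m + m) where
  toFun y := pr 0 y
  map_add' x y := by
    rw [← pr_add, add_zero]
  map_smul' c x := by
    rw [← pr_fst_snd (RingHom.id (ZMod 2) c • pr 0 x)]
    have h1 : fst (RingHom.id (ZMod 2) c • pr 0 x) = 0 := by
      have : fst (RingHom.id (ZMod 2) c • pr 0 x) = c • fst (pr 0 x) := rfl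
      rw [this, fst_pr, smul_zero]
    have h2 : snd (RingHom.id (ZMod 2) c • pr 0 x) = c • x := by
      have : snd (RingHom.id (ZMod 2) c • pr 0 x) = c • snd (pr 0 x) := rfl
      rw [this, snd_pr]
    rw [h1, h2]

theorem one_of_typeMinus (B : Mul m) (ρ : W m → W m) (L : W (m + m) →ₗ[ZMod 2] W m)
    (h : TypeMinus (fun x => MM B ρ x + L x)) :
    ∃ α, One B (L.comp (inl m)) (L.comp (inr m)) α ρ := by
  obtain ⟨α, hα, -⟩ := h
  refine ⟨α, ?_⟩
  have e1 : m + m - m = m := by omega
  have e2 : (m + m) / 2 = m := by omega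
  rw [e1, e2, Nat.sub_self, sub_self, zero_add, pow_zero] at hα
  have h1 : pre (fun x => MM B ρ x + L x) α = 1 := by exact_mod_cast hα
  unfold pre at h1
  rw [card_filter_pr] at h1
  unfold One
  rw [← h1]
  apply sum_congr rfl
  intro y _
  congr 1
  ext x
  rw [mem_filter, mem_filter]
  have h2 : L (pr x y) = L (pr x 0) + L (pr 0 y) := by
    rw [← map_add, ← pr_add, add_zero, zero_add]
  have h3 : MM B ρ (pr x y) + L (pr x y) =
      (B.f x y + L (pr x 0)) + (ρ y + L (pr 0 y)) := by
    unfold MM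
    rw [fst_pr, snd_pr, h2]; abel
  show (x ∈ univ ∧ (B.f x y + L (pr x 0)) = α + (ρ y + L (pr 0 y))) ↔
    (x ∈ univ ∧ MM B ρ (pr x y) + L (pr x y) = α)
  rw [h3, wadd_eq_iff (B.f x y + L (pr x 0)) (ρ y + L (pr 0 y)) α]

/-- For every `m ≥ 7` there is a bent function `F : F_2^(2m) → F_2^m` such that `F + L` is not
almost balanced of type `(-)` for any linear map `L`. -/
theorem result (m : ℕ) (hm : 7 ≤ m) : ∃ F : W (m + m) → W m, IsBent F ∧
    ∀ L : W (m + m) →ₗ[ZMod 2] W m, ¬ TypeMinus (fun x => F x + L x) := by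
  classical
  obtain ⟨B⟩ := exists_mul (m := m) (by omega)
  by_contra hcon
  push Not at hcon
  have hex : ∀ ρ : W m → W m, ∃ c : (W m →ₗ[ZMod 2] W m) × (W m →ₗ[ZMod 2] W m) × W m,
      One B c.1 c.2.1 c.2.2 ρ := by
    intro ρ
    obtain ⟨L, hL⟩ := hcon (MM B ρ) (MM_bent B ρ)
    obtain ⟨α, hα⟩ := one_of_typeMinus B ρ L hL
    exact ⟨⟨_, _, α⟩, hα⟩
  choose c hc using hex
  have : Finite (W m →ₗ[ZMod 2] W m) := Module.finite_of_finite (ZMod 2)
  have := Fintype.ofFinite (W m →ₗ[ZMod 2] W m)
  have hb := card_le_mul_card_image_of_maps_to (s := (univ : Finset (W m → W m)))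
    (t := (univ : Finset ((W m →ₗ[ZMod 2] W m) × (W m →ₗ[ZMod 2] W m) × W m))) (f := c)
    (fun _ _ => mem_univ _) (2 ^ m * (2 ^ (m - 1)) ^ (2 ^ m - 1)) (by
      intro d _
      refine le_trans (card_le_card ?_)
        (card_one (by omega) B d.1 d.2.1 (fun x x' => map_add _ _ _) d.2.2)
      intro ρ hρ
      rw [mem_filter] at hρ ⊢
      refine ⟨mem_univ _, ?_⟩
      rw [← hρ.2]
      exact hc ρ)
  have hlin : Fintype.card (W m →ₗ[ZMod 2] W m) = 2 ^ (m * m) := by
    rw [Module.card_eq_pow_finrank (K := ZMod 2), Module.finrank_linearMap, ZMod.card]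
    simp
  rw [card_univ, card_univ, Fintype.card_prod, Fintype.card_prod, hlin, Fintype.card_fun,
    card_W] at hb
  have h1 : 2 ^ m * (2 ^ (m - 1)) ^ (2 ^ m - 1) * (2 ^ (m * m) * (2 ^ (m * m) * 2 ^ m)) =
      2 ^ (2 * (m * m) + m + m + (m - 1) * (2 ^ m - 1)) := by
    rw [← pow_mul, ← pow_add, ← pow_add, ← pow_add, ← pow_add]
    congr 1
    ring
  rw [h1, ← pow_mul] at hb
  have h2 := numeric hm
  have h3 := (Nat.pow_le_pow_iff_right (by norm_num : 1 < 2)).1 hb
  omega

end Pool.Agent.Results.MP_7d7944_co.NoMinusType
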